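import Pool.Agent.Helper35.SHQ.Sheet

/-!
# SHQ row NUM: the kernel computation

The 402 steps are checked in twelve parts, so that no single kernel computation is long.
-/

namespace SHQ
namespace NUM49

instance : DecidableEq Q3 := fun a b =>
  decidable_of_iff (a.al = b.al ∧ a.be = b.be ∧ a.ka = b.ka) (by cases a; cases b; simp)

/-- one step, sixteen terms of the sums -/
def S (r : Q3) : Q3 := stepQ 16 (35028 / 100000) (403 / 400) r

set_option maxRecDepth 1000000 in
theorem c0 : S^[34] ⟨0, 0, 0⟩ =
    ⟨705915471 / 1000000000, 6802850397 / 10000000000, 4597256629 / 10000000000⟩ := by decide +kernel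

set_option maxRecDepth 1000000 in
theorem c1 : S^[34] ⟨705915471 / 1000000000, 6802850397 / 10000000000, 4597256629 / 10000000000⟩ =
    ⟨7173084123 / 10000000000, 27001303 / 39062500, 577687543 / 1250000000⟩ := by decide +kernel

set_option maxRecDepth 1000000 in
theorem c2 : S^[34] ⟨7173084123 / 10000000000, 27001303 / 39062500, 577687543 / 1250000000⟩ =
    ⟨3607868193 / 5000000000, 6953416241 / 10000000000, 4630476149 / 10000000000⟩ := by decide +kernel

set_option maxRecDepth 1000000 in
theorem c3 : S^[34] ⟨3607868193 / 5000000000, 6953416241 / 10000000000, 4630476149 / 10000000000⟩ =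
    ⟨7240671077 / 10000000000, 6977457399 / 10000000000, 4635698439 / 10000000000⟩ := by decide +kernel

set_option maxRecDepth 1000000 in
theorem c4 : S^[34] ⟨7240671077 / 10000000000, 6977457399 / 10000000000, 4635698439 / 10000000000⟩ =
    ⟨3629563907 / 5000000000, 699526419 / 1000000000, 2319776093 / 5000000000⟩ := by decide +kernel

set_option maxRecDepth 1000000 in
theorem c5 : S^[34] ⟨3629563907 / 5000000000, 699526419 / 1000000000, 2319776093 / 5000000000⟩ =
    ⟨3637653431 / 5000000000, 87636019 / 125000000, 4642922129 / 10000000000⟩ := by decide +kernel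

set_option maxRecDepth 1000000 in
theorem c6 : S^[34] ⟨3637653431 / 5000000000, 87636019 / 125000000, 4642922129 / 10000000000⟩ =
    ⟨1458345807 / 2000000000, 7026741207 / 10000000000, 4646334881 / 10000000000⟩ := by decide +kernel

set_option maxRecDepth 1000000 in
theorem c7 : S^[34] ⟨1458345807 / 2000000000, 7026741207 / 10000000000, 4646334881 / 10000000000⟩ =
    ⟨7311076189 / 10000000000, 1761358903 / 2500000000, 2325172701 / 5000000000⟩ := by decide +kernel

set_option maxRecDepth 1000000 in
theorem c8 : S^[34] ⟨7311076189 / 10000000000, 1761358903 / 2500000000, 2325172701 / 5000000000⟩ =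
    ⟨7338310619 / 10000000000, 7071769401 / 10000000000, 2327986247 / 5000000000⟩ := by decide +kernel

set_option maxRecDepth 1000000 in
theorem c9 : S^[34] ⟨7338310619 / 10000000000, 7071769401 / 10000000000, 2327986247 / 5000000000⟩ =
    ⟨1847017441 / 2500000000, 111249033 / 156250000, 1166549597 / 2500000000⟩ := by decide +kernel

set_option maxRecDepth 1000000 in
theorem c10 : S^[34] ⟨1847017441 / 2500000000, 111249033 / 156250000, 1166549597 / 2500000000⟩ =
    ⟨7544641147 / 10000000000, 3635985697 / 5000000000, 4697917367 / 10000000000⟩ := by decide +kernel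

set_option maxRecDepth 1000000 in
theorem cl : (1 : ℚ) ≤ 35028 / 100000 * (S^[28]
    ⟨7544641147 / 10000000000, 3635985697 / 5000000000, 4697917367 / 10000000000⟩).be := by decide +kernel

end NUM49

open NUM49 in
/-- sixteen terms of the sums and 402 steps are enough -/
theorem st_NUM : ST_NUM := by
  refine ⟨402, 16, ?_⟩
  change (1 : ℚ) ≤ 35028 / 100000 * (S^[402] ⟨0, 0, 0⟩).be
  have h : (402 : ℕ) = 28 + 34 + 34 + 34 + 34 + 34 + 34 + 34 + 34 + 34 + 34 + 34 := rfl
  rw [h, Function.iterate_add_apply, Function.iterate_add_apply, Function.iterate_add_apply, Function.iterate_add_apply, Function.iterate_add_apply, Function.iterate_add_apply, Function.iterate_add_apply, Function.iterate_add_apply, Function.iterate_add_apply, Function.iterate_add_apply, Function.iterate_add_apply,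
    c0, c1, c2, c3, c4, c5, c6, c7, c8, c9, c10]
  exact cl

end SHQ
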